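import Pool.Agent.Run7.h894.LK.Stm
import Pool.Agent.N537.RS.Log

/-!
# Project LK (leader helper894): the gradient of a cylindrical system (piece GRC)
-/

set_option autoImplicit false

open MeasureTheory Set Filter Topology
open Pool.Agent.R117.RL

namespace Pool.Agent.Run7.H141.LK

open Pool.Agent.Run7.H894.LK

theorem hasFD {m : ℕ} {G : ℝ × (Fin m → ℝ) → ℂ} (hG : ContDiffOn ℝ 1 G {z | 0 < z.1}) {r : ℝ}
    (hr : 0 < r) (y : Fin m → ℝ) : HasFDerivAt G (fderiv ℝ G (r, y)) (r, y) := by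
  have ho : IsOpen {z : ℝ × (Fin m → ℝ) | 0 < z.1} := isOpen_lt continuous_const continuous_fst
  exact ((hG.differentiableOn one_ne_zero).differentiableAt (ho.mem_nhds hr)).hasFDerivAt

theorem phi_cd {m : ℕ} {G : ℝ × (Fin m → ℝ) → ℂ} (hG : ContDiffOn ℝ 1 G {z | 0 < z.1}) (κ lam : ℝ)
    {φ : (Fin (m + 1) → ℝ) → ℂ}
    (hφ : ∀ z, φ z = ((κ * Real.exp (lam * z 0) : ℝ) : ℂ) *
      G (Real.exp (z 0), fun j => z j.succ)) : ContDiff ℝ 1 φ := by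
  have h1 : φ = fun z => ((κ * Real.exp (lam * z 0) : ℝ) : ℂ) *
      G (Real.exp (z 0), fun j => z j.succ) := funext hφ
  rw [h1]
  apply ContDiff.mul
  · exact Complex.ofRealCLM.contDiff.comp (contDiff_const.mul
      (Real.contDiff_exp.comp (contDiff_const.mul (contDiff_apply ℝ ℝ 0))))
  · have h2 : ContDiff ℝ 1 (fun z : Fin (m + 1) → ℝ =>
        ((Real.exp (z 0), fun j : Fin m => z j.succ) : ℝ × (Fin m → ℝ))) := by
      apply ContDiff.prodMk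
      · exact Real.contDiff_exp.comp (contDiff_apply ℝ ℝ 0)
      · exact contDiff_pi.2 fun j => contDiff_apply ℝ ℝ j.succ
    exact hG.comp_contDiff h2 fun z => Real.exp_pos _

theorem phi_deriv {m : ℕ} {G : ℝ × (Fin m → ℝ) → ℂ} (hG : ContDiffOn ℝ 1 G {z | 0 < z.1})
    (κ lam : ℝ) {φ : (Fin (m + 1) → ℝ) → ℂ}
    (hφ : ∀ z, φ z = ((κ * Real.exp (lam * z 0) : ℝ) : ℂ) *
      G (Real.exp (z 0), fun j => z j.succ)) (z v : Fin (m + 1) → ℝ) :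
    fderiv ℝ φ z v = ((κ * Real.exp (lam * z 0) : ℝ) : ℂ) *
      ((lam * v 0 : ℝ) * G (Real.exp (z 0), fun j => z j.succ) +
        fderiv ℝ G (Real.exp (z 0), fun j => z j.succ) (Real.exp (z 0) * v 0, fun j => v j.succ)) := by
  have h1 : φ = fun z => ((κ * Real.exp (lam * z 0) : ℝ) : ℂ) *
      G (Real.exp (z 0), fun j => z j.succ) := funext hφ
  have hM : HasFDerivAt (fun z : Fin (m + 1) → ℝ =>
      ((Real.exp (z 0), fun j : Fin m => z j.succ) : ℝ × (Fin m → ℝ)))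
      ((Real.exp (z 0) • (ContinuousLinearMap.proj 0 : (Fin (m + 1) → ℝ) →L[ℝ] ℝ)).prod
        (ContinuousLinearMap.pi fun j : Fin m =>
          (ContinuousLinearMap.proj j.succ : (Fin (m + 1) → ℝ) →L[ℝ] ℝ))) z := by
    apply HasFDerivAt.prodMk
    · exact (hasFDerivAt_apply 0 z).exp
    · exact hasFDerivAt_pi.2 fun j => hasFDerivAt_apply j.succ z
  have hE : HasFDerivAt (fun z : Fin (m + 1) → ℝ => κ * Real.exp (lam * z 0))
      (κ • (Real.exp (lam * z 0) • (lam • (ContinuousLinearMap.proj 0 :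
        (Fin (m + 1) → ℝ) →L[ℝ] ℝ)))) z :=
    (((hasFDerivAt_apply 0 z).const_mul lam).exp).const_mul κ
  have hE' := Complex.ofRealCLM.hasFDerivAt.comp z hE
  have hGM := (hasFD hG (Real.exp_pos (z 0)) (fun j => z j.succ)).comp z hM
  have h2 := hE'.mul hGM
  have h3 := h2.fderiv
  rw [h1]
  refine (congrArg (fun L : (Fin (m + 1) → ℝ) →L[ℝ] ℂ => L v) h3).trans ?_
  simp
  ring

/-- the derivative of `G(|x|, y) P(x)` -/
theorem u_deriv {k m : ℕ} {G : ℝ × (Fin m → ℝ) → ℂ} (hG : ContDiffOn ℝ 1 G {z | 0 < z.1})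
    {P : E k → ℝ} {p : Sp k m} (hp : p.1 ≠ 0) (hP : DifferentiableAt ℝ P p.1) :
    ∃ L : Sp k m →L[ℝ] ℂ, HasFDerivAt (fun q : Sp k m => G (‖q.1‖, q.2) * (P q.1 : ℂ)) L p ∧
      ∀ w, L (0, w) = (P p.1 : ℂ) * fderiv ℝ G (‖p.1‖, p.2) (0, w) := by
  have hr : 0 < ‖p.1‖ := norm_pos_iff.2 hp
  have hN : HasFDerivAt (fun q : Sp k m => ((‖q.1‖, q.2) : ℝ × (Fin m → ℝ)))
      ((((1 / ‖p.1‖) • innerSL ℝ p.1).comp (ContinuousLinearMap.fst ℝ (E k) (Fin m → ℝ))).prod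
        (ContinuousLinearMap.snd ℝ (E k) (Fin m → ℝ))) p :=
    ((norm_deriv hp).comp p hasFDerivAt_fst).prodMk hasFDerivAt_snd
  have h1 := (hasFD hG hr p.2).comp p hN
  have h2 : HasFDerivAt (fun q : Sp k m => (P q.1 : ℂ)) (Complex.ofRealCLM.comp
      ((fderiv ℝ P p.1).comp (ContinuousLinearMap.fst ℝ (E k) (Fin m → ℝ)))) p :=
    Complex.ofRealCLM.hasFDerivAt.comp p (hP.hasFDerivAt.comp p hasFDerivAt_fst)
  refine ⟨_, h1.mul h2, ?_⟩
  intro w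
  simp

theorem grad_split {k m : ℕ} {G : ℝ × (Fin m → ℝ) → ℂ} (hG : ContDiffOn ℝ 1 G {z | 0 < z.1})
    {P : E k → ℝ} {p : Sp k m} (hp : p.1 ≠ 0) (hP : DifferentiableAt ℝ P p.1) :
    gradS (fun q : Sp k m => G (‖q.1‖, q.2) * (P q.1 : ℂ)) p =
      grad2 (fun x : E k => (fun r => G (r, p.2)) ‖x‖ * (P x : ℂ)) p.1 +
        P p.1 ^ 2 * ∑ j : Fin m, ‖fderiv ℝ G (‖p.1‖, p.2) (0, Pi.single j 1)‖ ^ 2 := by
  obtain ⟨L, hL, hw⟩ := u_deriv hG hp hP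
  obtain ⟨x, y⟩ := p
  simp only at hp hP hL hw ⊢
  have hc : HasFDerivAt (fun x : E k => G (‖x‖, y) * (P x : ℂ))
      (L.comp (ContinuousLinearMap.inl ℝ (E k) (Fin m → ℝ))) x := by
    have h1 : HasFDerivAt (fun x : E k => ((x, y) : Sp k m))
        (ContinuousLinearMap.inl ℝ (E k) (Fin m → ℝ)) x :=
      (hasFDerivAt_id (𝕜 := ℝ) x).prodMk (hasFDerivAt_const y x)
    exact HasFDerivAt.comp (f := fun x : E k => ((x, y) : Sp k m)) x hL h1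
  unfold gradS grad2
  rw [hL.fderiv, hc.fderiv, Finset.mul_sum]
  congr 1
  refine Finset.sum_congr rfl fun j _ => ?_
  rw [hw, norm_mul, mul_pow, Complex.norm_real, Real.norm_eq_abs, sq_abs]

theorem t_GRC : S_GRC := by
  intro k m g l hk hg P hP G hG φ hφ
  refine ⟨phi_cd hG _ _ hφ, ?_⟩
  intro p hp
  have hr : 0 < ‖p.1‖ := norm_pos_iff.2 hp
  have hg0 : (0 : ℝ) < g := by exact_mod_cast hg
  have hsg : 0 < sg k := sg_pos (by omega)
  have hdiff : ∀ j, DifferentiableAt ℝ (P j) p.1 := fun j =>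
    (hP.smooth j).differentiable one_ne_zero p.1
  set D := fderiv ℝ G (‖p.1‖, p.2) with hD
  set S : ℝ := ∑ j : Fin m, ‖D (0, Pi.single j 1)‖ ^ 2 with hS
  have hGd : HasDerivAt (fun r => G (r, p.2)) (D (1, 0)) ‖p.1‖ := by
    have h1 : HasDerivAt (fun r : ℝ => ((r, p.2) : ℝ × (Fin m → ℝ))) (1, 0) ‖p.1‖ :=
      (hasDerivAt_id _).prodMk (hasDerivAt_const _ _)
    exact (hasFD hG hr p.2).comp_hasDerivAt ‖p.1‖ h1
  have hLHS : ∑ j, gradS (fun q : Sp k m => G (‖q.1‖, q.2) * (P j q.1 : ℂ)) p =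
      ‖(‖p.1‖ ^ l) • D (1, 0) + ((l : ℝ) * ‖p.1‖ ^ (l - 1)) • G (‖p.1‖, p.2)‖ ^ 2 +
        (l : ℝ) * ((l : ℝ) + k - 2) * (‖(‖p.1‖ ^ l) • G (‖p.1‖, p.2)‖ ^ 2 / ‖p.1‖ ^ 2) +
        ‖p.1‖ ^ (2 * l) * S := by
    rw [Finset.sum_congr rfl fun j _ => grad_split hG hp (hdiff j), Finset.sum_add_distrib,
      ← Finset.sum_mul, hP.square]
    rw [Pool.Agent.N537.RS.LO.grad_any hP hp hGd]
  set r : ℝ := ‖p.1‖ with hrdef
  set Gv : ℂ := G (r, p.2) with hGv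
  set lam : ℝ := (l : ℝ) + ((k : ℝ) - 2) / 2 with hlam
  set c : ℝ := √(sg k / g) * Real.exp (lam * Real.log r) with hc
  have hc2 : c ^ 2 = sg k / g * ((r ^ l) ^ 2 * r ^ (k - 2)) := by
    rw [hc, mul_pow, Real.sq_sqrt (by positivity), ← Real.exp_nat_mul]
    have e1 : ((2 : ℕ) : ℝ) * (lam * Real.log r) = ((2 * l + (k - 2) : ℕ) : ℝ) * Real.log r := by
      rw [hlam, Nat.cast_add, Nat.cast_sub (by omega : 2 ≤ k)]
      push_cast
      ring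
    rw [e1, Real.exp_nat_mul, Real.exp_log hr, pow_add, pow_mul']
  have hzr : Real.exp ((Fin.cons (Real.log r) p.2 : Fin (m + 1) → ℝ) 0) = r := by
    rw [Fin.cons_zero, Real.exp_log hr]
  have hzy : (fun j : Fin m => (Fin.cons (Real.log r) p.2 : Fin (m + 1) → ℝ) j.succ) = p.2 := by
    funext j
    rw [Fin.cons_succ]
  have hφv : φ (Fin.cons (Real.log r) p.2) = (c : ℂ) * Gv := by
    rw [hφ, hzr, hzy, Fin.cons_zero]
  have hpd0 : pdc 0 φ (Fin.cons (Real.log r) p.2) = (c : ℂ) * ((lam : ℂ) * Gv + (r : ℂ) * D (1, 0)) := by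
    unfold pdc
    rw [phi_deriv hG _ _ hφ, hzr, hzy, Fin.cons_zero]
    have e1 : ((r * (Pi.single 0 1 : Fin (m + 1) → ℝ) 0,
        fun j : Fin m => (Pi.single 0 1 : Fin (m + 1) → ℝ) j.succ) : ℝ × (Fin m → ℝ)) =
        r • ((1, 0) : ℝ × (Fin m → ℝ)) := by
      ext i
      · simp
      · simp
    rw [e1, map_smul, Complex.real_smul]
    simp [hc, hGv, hD]
  have hpdj : ∀ j : Fin m, pdc j.succ φ (Fin.cons (Real.log r) p.2) =
      (c : ℂ) * D (0, Pi.single j 1) := by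
    intro j
    unfold pdc
    rw [phi_deriv hG _ _ hφ, hzr, hzy, Fin.cons_zero]
    have e1 : ((r * (Pi.single j.succ 1 : Fin (m + 1) → ℝ) 0,
        fun i : Fin m => (Pi.single j.succ 1 : Fin (m + 1) → ℝ) i.succ) : ℝ × (Fin m → ℝ)) =
        (0, Pi.single j 1) := by
      ext i
      · simp
      · simp [Pi.single_apply]
    rw [e1]
    simp [hc, hD]
  have hN1 : ‖(r ^ l) • D (1, 0) + ((l : ℝ) * r ^ (l - 1)) • Gv‖ ^ 2 =
      (r ^ l) ^ 2 / r ^ 2 * ‖(l : ℂ) * Gv + (r : ℂ) * D (1, 0)‖ ^ 2 := by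
    have e1 : (r ^ l) • D (1, 0) + ((l : ℝ) * r ^ (l - 1)) • Gv =
        ((r ^ l / r : ℝ) : ℂ) * ((l : ℂ) * Gv + (r : ℂ) * D (1, 0)) := by
      have hrc : (r : ℂ) ≠ 0 := by exact_mod_cast hr.ne'
      rw [Complex.real_smul, Complex.real_smul]
      rcases l with _ | l
      · push_cast
        field_simp
        ring
      · rw [Nat.add_sub_cancel]
        push_cast
        field_simp
        ring
    rw [e1, norm_mul, mul_pow, Complex.norm_real, Real.norm_eq_abs, sq_abs, div_pow]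
  have hN2 : ‖(r ^ l) • Gv‖ ^ 2 = (r ^ l) ^ 2 * ‖Gv‖ ^ 2 := by
    rw [norm_smul, mul_pow, Real.norm_eq_abs, sq_abs]
  have hM1 : ‖pdc 0 φ (Fin.cons (Real.log r) p.2) -
      ((((k : ℝ) - 2) / 2 : ℝ) : ℂ) * φ (Fin.cons (Real.log r) p.2)‖ ^ 2 =
      c ^ 2 * ‖(l : ℂ) * Gv + (r : ℂ) * D (1, 0)‖ ^ 2 := by
    have e1 : pdc 0 φ (Fin.cons (Real.log r) p.2) -
      ((((k : ℝ) - 2) / 2 : ℝ) : ℂ) * φ (Fin.cons (Real.log r) p.2) =
      (c : ℂ) * ((l : ℂ) * Gv + (r : ℂ) * D (1, 0)) := by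
      rw [hpd0, hφv, hlam]
      push_cast
      ring
    rw [e1, norm_mul, mul_pow, Complex.norm_real, Real.norm_eq_abs, sq_abs]
  have hM2 : ‖φ (Fin.cons (Real.log r) p.2)‖ ^ 2 = c ^ 2 * ‖Gv‖ ^ 2 := by
    rw [hφv, norm_mul, mul_pow, Complex.norm_real, Real.norm_eq_abs, sq_abs]
  have hM3 : ∑ j : Fin m, ‖pdc j.succ φ (Fin.cons (Real.log r) p.2)‖ ^ 2 = c ^ 2 * S := by
    rw [hS, Finset.mul_sum]
    refine Finset.sum_congr rfl fun j _ => ?_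
    rw [hpdj, norm_mul, mul_pow, Complex.norm_real, Real.norm_eq_abs, sq_abs]
  rw [hLHS, hN1, hN2, hM1, hM2, hM3, hc2]
  have e2 : r ^ (2 * l) = (r ^ l) ^ 2 := by rw [← pow_mul, mul_comm]
  have e3 : r ^ k = r ^ (k - 2) * r ^ 2 := by
    rw [← pow_add]
    congr 1
    omega
  rw [e2, e3]
  have h5 : r ^ (k - 2) ≠ 0 := (pow_pos hr _).ne'
  have h6 : r ^ l ≠ 0 := (pow_pos hr _).ne'
  field_simp

end Pool.Agent.Run7.H141.LK
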